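import Pool.Agent.H64.XS.Stm
import Pool.Graph.R_pool_sql_team_seeded_3997aac3.Q76.TR.Pos

/-!
# Project XS (helper64), job CHB (helper39): a chain for the adjoint of the compression
-/

set_option autoImplicit false

namespace Pool.Agent.H39.XS

open MeasureTheory Set Metric Filter Topology
open scoped InnerProductSpace ENNReal NNReal ComplexConjugate
open Pool.Agent.Y283.NK (ct IsMul Repr)
open Pool.Agent.Y271.RO (IsChain)
open Pool.Agent.Q130.TR Pool.Agent.Q76.TR
open Pool.Agent.H50.SM
open Pool.Agent.H64.XS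
open ContinuousLinearMap (adjoint)

/-- CHB -/
theorem chb (hL : S_L2B) (hHSB : S_HSB) (hKER : S_KER) : S_CHB := by
  intro S _ μ _ φ N K u v J H _ _ _ V B hD a r hr hnot
  have hN' := Pool.Agent.Y77.NK.isMul_adj hD.mul
  have hK' : Repr (adjoint K) v u := (Pool.Agent.Y77.NK.main_trc _ K u v hD.rep).1
  have hadj : ∀ z : ℂ, (fun i j => conj (Fm φ u v z j i)) =
      Fm (fun s => conj (φ s)) v u (conj z) := by
    intro z
    funext i j
    rw [Fm, Fm, Pool.Agent.Y77.NK.ct_conj]
  have hconj : MeasurePreserving (fun z : ℂ => conj z) volume volume :=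
    Complex.conjLIE.measurePreserving
  obtain ⟨m1, m2, -, -⟩ := hHSB.1 S μ (fun s => conj (φ s)) hN'.meas v u hK'.1 hK'.2.1
  obtain ⟨Z, hZ, hZ1, hZ2⟩ := full m2
  obtain ⟨e, he1, he2, he3, he4, he5, he6⟩ :=
    hKER (Fm (fun s => conj (φ s)) v u) m1 J Z hZ hZ1
  have hex : ∃ j i, ¬ ∀ᵐ z, z ∈ ball (conj a) r → e j i z = 0 := by
    by_contra hcon
    push Not at hcon
    apply hnot
    have h1 : ∀ᵐ z, ∀ j i, z ∈ ball (conj a) r → e j i z = 0 :=
      ae_all_iff.2 fun j => ae_all_iff.2 fun i => hcon j i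
    have h2 := hconj.quasiMeasurePreserving.ae (h1.and hZ2)
    filter_upwards [h2] with z hz hzb
    obtain ⟨hz1, hz2⟩ := hz
    have hzb' : conj z ∈ ball (conj a) r := by
      rw [mem_ball_iff_norm] at hzb ⊢
      rw [← map_sub, Complex.norm_conj]
      exact hzb
    intro d hd hdJ hdF
    rw [hadj z] at hdF
    exact he6 (conj z) hz2 (fun j i => hz1 j i hzb') d hd hdJ hdF
  obtain ⟨j, i, hji⟩ := hex
  have hiJ : i ∈ J := by
    by_contra hi
    exact hji (Eventually.of_forall fun z _ => he5 z j i hi)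
  set γ : ℂ → ℂ := e j i with hγ
  have hγm : Measurable γ := he1 j i
  set g : ℂ → ℂ := (ball (conj a) r).indicator
    fun z => conj (γ z) / ((1 + ‖γ z‖ : ℝ) : ℂ) with hg
  have hgm : Measurable g := by
    refine Measurable.indicator ?_ measurableSet_ball
    exact (Complex.continuous_conj.measurable.comp hγm).div
      (Complex.measurable_ofReal.comp (hγm.norm.const_add 1))
  have hg1 : ∀ z, ‖g z‖ ≤ 1 := by
    intro z
    by_cases hz : z ∈ ball (conj a) r
    · rw [hg, indicator_of_mem hz, norm_div, Complex.norm_conj, Complex.norm_real,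
        Real.norm_eq_abs, abs_of_pos (by positivity), div_le_one (by positivity)]
      linarith
    · rw [hg, indicator_of_notMem hz, norm_zero]
      norm_num
  obtain ⟨X, hX1, hX2⟩ := vecs hL hHSB hN' hK' (he1 j) (fun z => he2 z j) (fun z => he3 z j)
    (fun z i => he4 z j i) (conj a) r hr g hgm hg1 (fun z hz => by rw [hg, indicator_of_notMem hz])
  have hpr : ∀ i' z, pr (fun s => conj (φ s)) v (u i') (e j) z = e j i' z := by
    intro i' z
    exact (he4 z j i').symm
  -- the vectors are in the range of `V`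
  have hran : ∀ k, V (adjoint V (X k)) = X k := by
    intro k
    refine hD.tot _ fun i' hi' => ?_
    rw [hX2 k (u i')]
    simp only [hpr, he5 _ j i' hi', mul_zero, integral_zero]
  have hVadj : ∀ k, adjoint B (adjoint V (X k)) =
      conj a • adjoint V (X k) + adjoint V (X (k + 1)) := by
    intro k
    have h1 : V (adjoint B (adjoint V (X k))) = adjoint (N + K) (X k) := by
      rw [hD.adj, hran k]
    have h2 : adjoint (N + K) (X k) = conj a • X k + X (k + 1) := by
      have h3 := hX1.1 k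
      rw [← h3, map_add]
      abel
    rw [← hD.iso (adjoint B (adjoint V (X k))), h1, h2, map_add, map_smul]
  have hle : ∀ y, ‖adjoint V y‖ ≤ ‖y‖ := by
    intro y
    have h0 : ‖adjoint V y‖ ^ 2 ≤ ‖adjoint V y‖ * ‖y‖ := by
      have h1 : ⟪adjoint V y, adjoint V y⟫_ℂ = ⟪V (adjoint V y), y⟫_ℂ := by
        rw [ContinuousLinearMap.adjoint_inner_right]
      have h2 : ‖V (adjoint V y)‖ = ‖adjoint V y‖ := by
        have h3 : ⟪V (adjoint V y), V (adjoint V y)⟫_ℂ = ⟪adjoint V y, adjoint V y⟫_ℂ := by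
          rw [← ContinuousLinearMap.adjoint_inner_left, hD.iso]
        have h4 : ‖V (adjoint V y)‖ ^ 2 = ‖adjoint V y‖ ^ 2 := by
          rw [inner_self_eq_norm_sq_to_K, inner_self_eq_norm_sq_to_K] at h3
          exact_mod_cast h3
        exact (sq_eq_sq₀ (norm_nonneg _) (norm_nonneg _)).1 h4
      have h5 : ‖⟪adjoint V y, adjoint V y⟫_ℂ‖ = ‖adjoint V y‖ ^ 2 := by
        rw [inner_self_eq_norm_sq_to_K, norm_pow, RCLike.norm_ofReal, abs_norm]
      rw [← h5, h1]
      calc ‖⟪V (adjoint V y), y⟫_ℂ‖ ≤ ‖V (adjoint V y)‖ * ‖y‖ := norm_inner_le_norm _ _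
        _ = _ := by rw [h2]
    rcases (norm_nonneg (adjoint V y)).eq_or_lt with h | h
    · rw [← h]; exact norm_nonneg _
    · rw [pow_two] at h0
      exact le_of_mul_le_mul_left h0 h
  refine ⟨fun k => adjoint V (X k), ⟨fun k => ?_, ?_⟩, fun hP0 => hji ?_⟩
  · show adjoint B (adjoint V (X k)) - conj a • adjoint V (X k) = adjoint V (X (k + 1))
    rw [hVadj k]
    abel
  · obtain ⟨C, hC⟩ := hX1.2
    exact ⟨C, fun k => (hle _).trans (hC k)⟩
  have hP1 : adjoint V (X 0) = 0 := hP0
  have hX0 : X 0 = 0 := by rw [← hran 0, hP1, map_zero]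
  have h2 := hX2 0 (u i)
  rw [hX0, inner_zero_right] at h2
  have h3 : ∀ z, (z - conj a) ^ 0 * (g z * pr (fun s => conj (φ s)) v (u i) (e j) z) =
      (((ball (conj a) r).indicator (fun z => ‖γ z‖ ^ 2 / (1 + ‖γ z‖)) z : ℝ) : ℂ) := by
    intro z
    rw [pow_zero, one_mul, hpr]
    change g z * γ z = _
    by_cases hz : z ∈ ball (conj a) r
    · rw [hg, indicator_of_mem hz, indicator_of_mem hz]
      push_cast
      rw [div_mul_eq_mul_div, ← Complex.normSq_eq_conj_mul_self, Complex.normSq_eq_norm_sq]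
      push_cast
      ring
    · rw [hg, indicator_of_notMem hz, indicator_of_notMem hz, zero_mul, Complex.ofReal_zero]
  simp only [h3] at h2
  rw [integral_complex_ofReal, eq_comm, Complex.ofReal_eq_zero] at h2
  have h5 : Integrable ((ball (conj a) r).indicator (fun z => ‖γ z‖ ^ 2 / (1 + ‖γ z‖))) := by
    have h6 := (pr_int hL hHSB hN'.meas hK'.1 (u i) (fldE hL (he1 j) (fun z => he2 z j)
      (fun z => he3 z j) (conj a) r 1 g hgm hg1
      (fun z hz => by rw [hg, indicator_of_notMem hz]))).1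
    refine h6.norm.congr (Eventually.of_forall fun z => ?_)
    show ‖pr (fun s => conj (φ s)) v (u i) (fun i z => g z * e j i z) z‖ = _
    rw [pr_smul]
    have h7 := h3 z
    rw [pow_zero, one_mul] at h7
    rw [h7, Complex.norm_real, Real.norm_eq_abs, abs_of_nonneg]
    exact indicator_nonneg (fun _ _ => by positivity) _
  rw [integral_eq_zero_iff_of_nonneg (fun z => indicator_nonneg (fun _ _ => by positivity) _) h5]
    at h2
  filter_upwards [h2] with z hz hzb
  rw [indicator_of_mem hzb] at hz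
  have h8 : ‖γ z‖ ^ 2 / (1 + ‖γ z‖) = 0 := hz
  rw [div_eq_zero_iff] at h8
  rcases h8 with h8 | h8
  · exact norm_eq_zero.1 (pow_eq_zero_iff two_ne_zero |>.1 h8)
  · have := norm_nonneg (γ z)
    linarith

end Pool.Agent.H39.XS
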